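import Pool.Agent.MP_db5b97_nt.H31.SpecT

/-! Adjustment at the primes dividing `q`, and extraction of the invariants. -/

namespace Pool.Agent.MP_db5b97_nt.H94

open H85 H31

theorem tr_smul {G A : Type} [Group G] [Fintype G] [AddCommGroup A] [DistribMulAction G A]
    (g : G) (x : A) : tr G (g • x) = tr G x := by
  rw [tr_apply, tr_apply]
  simp only [← mul_smul]
  exact Fintype.sum_equiv (Equiv.mulRight g) _ _ fun _ => rfl

theorem exists_hom {M A : Type} [AddCommGroup M] [Module.Free ℤ M] [AddCommGroup A]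
    (P : AddSubgroup (M × A)) (h : ∀ m, ∃ a, (m, a) ∈ P) : ∃ f : M →+ A, ∀ m, (m, f m) ∈ P := by
  choose y hy using h
  let b := Module.Free.chooseBasis ℤ M
  refine ⟨(b.constr ℤ fun i => y (b i)).toAddMonoidHom, fun m => ?_⟩
  have hm := b.mem_span m
  induction hm using Submodule.span_induction with
  | mem x hx =>
    obtain ⟨i, rfl⟩ := hx
    simpa using hy (b i)
  | zero => rw [map_zero]; exact P.zero_mem
  | add x z _ _ hx hz => simpa using P.add_mem hx hz
  | smul a x _ hx => simpa using P.zsmul_mem hx a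

/-- the abstract form of the adjustment -/
theorem adj {G A M X : Type} [Group G] [Fintype G] [AddCommGroup A] [DistribMulAction G A]
    [AddCommGroup M] [DistribMulAction G M] [Module.Free ℤ M] [MulAction G X]
    (U : X → AddSubgroup A) (F : AddSubgroup A) (ν : A →+ A) (s : Hm M A)
    (hU : ∀ (g : G) w x, g • x ∈ U (g • w) ↔ x ∈ U w) (hF : ∀ (g : G), ∀ x ∈ F, g • x ∈ F)
    (hν : ∀ (g : G) x, ν (g • x) = g • ν x) (hνU : ∀ w, ∀ x ∈ U w, ν x ∈ U w)
    (hwa : ∀ f : X → A, (∀ w, f w ∈ F) → ∃ y ∈ F, ∀ w, y - f w ∈ U w)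
    (hfree : ∀ (g : G) (w : X), g • w = w → g = 1) (hs : ∀ m, s m ∈ F)
    (htr : tr G (Hm.post ν s) = 0) :
    ∃ s' : Hm M A, (∀ m, s' m ∈ F) ∧ tr G s' = tr G s ∧ ∀ m w, ν (s' m) ∈ U w := by
  classical
  let rep : X → X := fun w => (Quotient.mk (MulAction.orbitRel G X) w).out
  have hrep : ∀ w, ∃ g : G, g • rep w = w := fun w => by
    have h : (MulAction.orbitRel G X) (rep w) w := Quotient.mk_out w
    obtain ⟨g, hg⟩ := MulAction.orbitRel_apply.1 ((MulAction.orbitRel G X).symm h)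
    exact ⟨g, hg⟩
  have hrep' : ∀ (g : G) w, rep (g • w) = rep w := fun g w => by
    have : Quotient.mk (MulAction.orbitRel G X) (g • w) = Quotient.mk _ w :=
      Quotient.sound (MulAction.orbitRel_apply.2 ⟨g, rfl⟩)
    simp only [rep, this]
  choose γ hγ using hrep
  have hγ' : ∀ (g : G) w, γ (g • w) = g * γ w := fun g w => by
    have h1 := hγ (g • w)
    rw [hrep'] at h1
    have h2 : ((g * γ w)⁻¹ * γ (g • w)) • rep w = rep w := by
      rw [mul_smul, h1, inv_smul_eq_iff, mul_smul, hγ]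
    have := hfree _ _ h2
    rw [inv_mul_eq_one] at this
    exact this.symm
  have hex : ∀ g : G, ∃ f : M →+ A, ∀ m, f m ∈ F ∧
      ∀ w, f m - (if γ w = g then s m else 0) ∈ U w := fun g => by
    let P : AddSubgroup (M × A) :=
      { carrier := {z | z.2 ∈ F ∧ ∀ w, z.2 - (if γ w = g then s z.1 else 0) ∈ U w}
        zero_mem' := ⟨F.zero_mem, fun w => by simp⟩
        add_mem' := by
          rintro a b ⟨ha, ha'⟩ ⟨hb, hb'⟩
          refine ⟨F.add_mem ha hb, fun w => ?_⟩
          have := (U w).add_mem (ha' w) (hb' w)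
          split_ifs at this ⊢
          · simpa only [Prod.snd_add, Prod.fst_add, map_add, add_sub_add_comm] using this
          · simpa using this
        neg_mem' := by
          rintro a ⟨ha, ha'⟩
          refine ⟨F.neg_mem ha, fun w => ?_⟩
          have := (U w).neg_mem (ha' w)
          split_ifs at this ⊢
          · simpa only [Prod.snd_neg, Prod.fst_neg, map_neg, neg_sub'] using this
          · simpa using this }
    refine exists_hom P fun m => ?_
    obtain ⟨y, hy, hy'⟩ := hwa (fun w => if γ w = g then s m else 0) fun w => by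
      split_ifs
      · exact hs m
      · exact F.zero_mem
    exact ⟨y, hy, hy'⟩
  choose f hf using hex
  let s' : Hm M A := s - ∑ g : G, (Hm.of (f g) - g⁻¹ • Hm.of (f g))
  have hs' : ∀ m, s' m = s m - ∑ g : G, (f g m - g⁻¹ • f g (g • m)) := fun m => by
    simp [s']
  have htr' : tr G s' = tr G s := by
    simp [s', tr_smul]
  have hnon : ∀ m w, γ w ≠ 1 → s' m ∈ U w := fun m w hw => by
    have e : s' m = -(∑ g : G, (f g m - if γ w = g then s m else 0)) +
        ∑ g : G, g⁻¹ • f g (g • m) := by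
      rw [hs', Finset.sum_sub_distrib, Finset.sum_sub_distrib, Finset.sum_ite_eq]
      simp only [Finset.mem_univ, if_true]
      abel
    rw [e]
    refine (U w).add_mem ((U w).neg_mem (sum_mem fun g _ => (hf g m).2 w)) (sum_mem fun g _ => ?_)
    have h1 := (hf g (g • m)).2 (g • w)
    rw [if_neg (by rw [hγ']; simpa using hw), sub_zero] at h1
    rw [← hU g, smul_inv_smul]
    exact h1
  refine ⟨s', fun m => ?_, htr', fun m w => ?_⟩
  · rw [hs']
    exact F.sub_mem (hs m) (sum_mem fun g _ => F.sub_mem (hf g m).1 (hF _ _ (hf g _).1))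
  · by_cases hw : γ w = 1
    · have hc : ∀ x : Hm M A, tr G (Hm.post ν x) = Hm.post ν (tr G x) := fun x => by
        ext m
        simp [tr_apply, hν]
      have h0 : tr G (Hm.post ν s') = 0 := by rw [hc, htr', ← hc, htr]
      have h1 : ∑ g : G, g • ν (s' (g⁻¹ • m)) = 0 := by
        simpa [tr_apply] using DFunLike.congr_fun h0 m
      rw [← Finset.add_sum_erase _ _ (Finset.mem_univ (1 : G)), inv_one, one_smul, one_smul,
        add_eq_zero_iff_eq_neg] at h1
      rw [h1]
      refine (U w).neg_mem (sum_mem fun g hg => ?_)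
      have h2 : γ (g⁻¹ • w) ≠ 1 := by
        rw [hγ', hw]
        simpa using Finset.ne_of_mem_erase hg
      have := (hU g _ _).2 (hνU _ _ (hnon (g⁻¹ • m) _ h2))
      rwa [smul_inv_smul] at this
    · exact hνU _ _ (hnon m w hw)

theorem rowADJ : RowU1 → RowADJ := by
  intro hU p q R g0 n k G E Λ M _ _ _ _ _ _ _ _ _ _ _ lam ζ _ _ _ s hFr hfree hs htr
  have := hFr.gal
  have : FaithfulSMul Λ E := hFr.gal.faithful
  have : Finite Λ := Nat.finite_of_card_ne_zero (by
    rw [hFr.card]; exact pow_ne_zero _ hFr.pp.ne_zero)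
  have hfix : ∀ (i : ℕ) (W : Pl E q), lam ^ i • W = W := fun i W => by
    have h1 : lam • W = W := Subtype.ext (hU.triv E Λ lam W.1 (hFr.ram W)).1
    induction i with
    | zero => simp
    | succ i ih => rw [pow_succ, mul_smul, h1, ih]
  have hcomm : ∀ (g : G) (t : Λ) (x : Un E), g • t • x = t • g • x := fun g t x =>
    Un.ext (hFr.comm g t x.val)
  let F : AddSubgroup (Un E) := (Df (lam ^ n)).ker
  have hmem : ∀ x, x ∈ F ↔ lam ^ n • x = x := fun x => by
    rw [AddMonoidHom.mem_ker, Df_apply, sub_eq_zero]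
  obtain ⟨s', h1, h2, h3⟩ := adj (G := G) (X := Pl E q) (fun W => U1w W.1) F (Nm lam n) s
    (fun g w x => hU.smul E G g w.1 x)
    (fun g x hx => by rw [hmem] at hx ⊢; rw [← hcomm, hx])
    (fun g x => by simp only [Nm_apply, Finset.smul_sum, hcomm])
    (fun w x hx => by
      rw [Nm_apply]
      refine sum_mem fun i _ => ?_
      have h := (hU.smul E Λ (lam ^ i) w.1 x).2 hx
      have e : lam ^ i • w.1 = w.1 := congrArg Subtype.val (hfix i w)
      rwa [e] at h)
    (fun f hf => by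
      obtain ⟨y, hy, hy'⟩ := hU.waFix E Λ (lam ^ n) q hFr.qp.ne_zero (hfix n) f
        fun w => (hmem _).1 (hf w)
      exact ⟨y, (hmem _).2 hy, hy'⟩)
    hfree (fun m => (hmem _).2 (hs m)) htr
  exact ⟨s', fun m => (hmem _).1 (h1 m), h2, fun m => mem_U1.2 (h3 m)⟩

theorem exists_div {M : Type} [AddCommGroup M] (f : M →+ ℤ) (c : ℤ) (hc : c ≠ 0)
    (h : ∀ m, c ∣ f m) : ∃ g : Du M, ∀ m, c * Zt.val (g m) = f m := by
  choose y hy using h
  refine ⟨Hm.of (Zt.val.symm.toAddMonoidHom.comp (AddMonoidHom.mk' y fun a b => ?_)),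
    fun m => (hy m).symm⟩
  apply mul_left_cancel₀ hc
  rw [← hy, map_add, hy a, hy b, mul_add]

theorem single_apply {Y N : Type} [AddCommGroup N] [DecidableEq Y] (y z : Y) (n : N) :
    Dg.single y n z = if y = z then n else 0 := by
  classical
  exact Finsupp.single_apply

theorem smul_single {G Y N : Type} [Group G] [MulAction G Y] [AddCommGroup N]
    [DistribMulAction G N] (g : G) (y : Y) (n : N) :
    g • Dg.single y n = Dg.single (g • y) (g • n) := by
  classical
  ext z
  rw [Dg.smul_apply, single_apply, single_apply]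
  by_cases h : g • y = z
  · rw [if_pos h, if_pos (by rw [← h, inv_smul_smul])]
  · rw [if_neg h, if_neg (fun h' => h (by rw [h', smul_inv_smul])), smul_zero]

theorem rowPRE : RowPRE := by
  intro p R j r h G Y M _ _ _ _ _ _ ψ A hp hG hR hψ htr hj hPs
  classical
  have hp' : ∀ a : ℕ, ((p ^ a : ℕ) : ℤ) ≠ 0 := fun a => by exact_mod_cast pow_ne_zero a hp
  obtain ⟨B, hB⟩ := Module.Finite.fg_top (R := ℤ) (M := M)
  let T0 : Finset Y := B.biUnion fun m => (A m).support
  have hT0 : ∀ m w, w ∉ T0 → A m w = 0 := fun m w hw => by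
    have hm : m ∈ Submodule.span ℤ (B : Set M) := hB ▸ Submodule.mem_top
    induction hm using Submodule.span_induction with
    | mem x hx =>
      by_contra hne
      exact hw (Finset.mem_biUnion.2 ⟨x, hx, Finsupp.mem_support_iff.2 hne⟩)
    | zero => simp
    | add x z _ _ hx hz => simp [hx, hz]
    | smul a x _ hx => simp [hx]
  let T : Finset Y := (Finset.univ ×ˢ T0).image fun z : G × Y => z.1 • z.2
  have hT : ∀ m w, w ∉ T → A m w = 0 := fun m w hw => hT0 m w fun h0 =>
    hw (Finset.mem_image.2 ⟨(1, w), by simpa using h0, one_smul G w⟩)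
  have hTs : ∀ (g : G), ∀ w ∈ T, g • w ∈ T := fun g w hw => by
    obtain ⟨z, hz, rfl⟩ := Finset.mem_image.1 hw
    exact Finset.mem_image.2 ⟨(g * z.1, z.2), by simpa using hz, mul_smul _ _ _⟩
  let S : Finset Y := T.filter fun w => ¬ p ^ (R - r) ∣ ψ w
  have hSs : ∀ (g : G), ∀ w ∈ S, g • w ∈ S := fun g w hw => by
    rw [Finset.mem_filter] at hw ⊢
    exact ⟨hTs g w hw.1, by rw [hψ]; exact hw.2⟩
  have hSs' : ∀ (g : G) w, g • w ∈ S ↔ w ∈ S := fun g w =>
    ⟨fun hw => by simpa using hSs g⁻¹ _ hw, hSs g w⟩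
  have hbad : ∀ m w, w ∉ S → ((p ^ (R - r) : ℕ) : ℤ) ∣ ψ w * A m w := fun m w hw => by
    by_cases hw' : w ∈ T
    · have : p ^ (R - r) ∣ ψ w := by
        by_contra hn
        exact hw (Finset.mem_filter.2 ⟨hw', hn⟩)
      exact Dvd.dvd.mul_right (Int.natCast_dvd_natCast.2 this) _
    · simp [hT m w hw']
  have hξ : ∀ w, ∃ ξ : Du M, ∀ m, ((p ^ j : ℕ) : ℤ) * Zt.val (ξ m) = ψ w * A m w := fun w =>
    exists_div ((AddMonoidHom.mulLeft (ψ w : ℤ)).comp ((Finsupp.applyAddHom w).comp A.hom)) _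
      (hp' j) fun m => hj m w
  choose ξ hξ using hξ
  let θ1 : Dg Y (Du M) := ∑ w ∈ S, Dg.single w (ξ w)
  have hθ1 : ∀ y, θ1 y = if y ∈ S then ξ y else 0 := fun y => by
    simp only [θ1, Dg.sum_apply, single_apply, Finset.sum_ite_eq']
  have htrA : ∀ m y, ∑ g : G, A (g⁻¹ • m) (g⁻¹ • y) = 0 := fun m y => by
    have h1 := DFunLike.congr_fun (DFunLike.congr_fun htr m) y
    rw [tr_apply, Hm.sum_apply, Finsupp.finsetSum_apply] at h1
    refine Eq.trans (Finset.sum_congr rfl fun g _ => ?_) h1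
    rw [Hm.smul_apply]
    exact (Finsupp.comapSMul_apply _ _ _).symm
  have hξtr : ∀ m y, ∑ g : G, Zt.val (ξ (g⁻¹ • y) (g⁻¹ • m)) = 0 := fun m y => by
    apply mul_left_cancel₀ (hp' j)
    rw [Finset.mul_sum, mul_zero]
    simp only [hξ, hψ]
    rw [← Finset.mul_sum, htrA, mul_zero]
  have htr1 : tr G θ1 = 0 := by
    ext y m
    apply Zt.val.injective
    simp only [tr_apply, Dg.sum_apply, Hm.sum_apply, Dg.smul_apply, Hm.smul_apply, Zt.smul_eq,
      hθ1, hSs', map_sum, Dg.zero_apply, Hm.zero_apply, map_zero]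
    split_ifs
    · exact hξtr m y
    · simp
  have hdeg : Dg.deg θ1 = ∑ w ∈ S, ξ w := by simp [θ1]
  have hdtr : tr G (Dg.deg θ1) = 0 := by
    have : tr G (Dg.deg θ1) = Dg.deg (tr G θ1) := by
      simp only [θ1, tr_apply, map_sum, smul_single, Dg.deg_single]
    rw [this, htr1, map_zero]
  have hdiv : ∀ m, ((p ^ (2 * r) : ℕ) : ℤ) ∣ Zt.val (Dg.deg θ1 m) := fun m => by
    have e1 : Ps ψ (A m) = ∑ w ∈ T, ψ w * A m w := by
      rw [Ps, Finsupp.liftAddHom_apply, Finsupp.sum_of_support_subset _ (s := T)]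
      · rfl
      · intro w hw
        by_contra hn
        exact Finsupp.mem_support_iff.1 hw (hT m w hn)
      · simp
    have e2 : ((p ^ j : ℕ) : ℤ) * Zt.val (Dg.deg θ1 m) =
        Ps ψ (A m) - ∑ w ∈ T \ S, ψ w * A m w := by
      rw [hdeg, Hm.sum_apply, map_sum, Finset.mul_sum, e1,
        ← Finset.sum_sdiff (show S ⊆ T from Finset.filter_subset _ T)]
      simp only [hξ]
      ring
    have e3 : ((p ^ (R - r) : ℕ) : ℤ) ∣ ((p ^ j : ℕ) : ℤ) * Zt.val (Dg.deg θ1 m) := by
      rw [e2]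
      refine dvd_sub ((Int.natCast_dvd_natCast.2 (pow_dvd_pow p (by omega))).trans (hPs m)) ?_
      exact Finset.dvd_sum fun w hw => hbad m w (Finset.mem_sdiff.1 hw).2
    have e4 : ((p ^ j : ℕ) : ℤ) * ((p ^ (2 * r) : ℕ) : ℤ) ∣ ((p ^ (R - r) : ℕ) : ℤ) := by
      rw [← Nat.cast_mul, ← pow_add]
      exact Int.natCast_dvd_natCast.2 (pow_dvd_pow p (by omega))
    exact (mul_dvd_mul_iff_left (hp' j)).1 (e4.trans e3)
  obtain ⟨d, hd⟩ := exists_div (Zt.val.toAddMonoidHom.comp (Dg.deg θ1).hom) _ (hp' _) hdiv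
  have hd' : p ^ (2 * r) • d = Dg.deg θ1 := by
    ext m
    apply Zt.val.injective
    rw [Hm.nsmul_apply, map_nsmul, nsmul_eq_mul]
    exact hd m
  have hdt : tr G d = 0 := by
    ext m
    apply Zt.val.injective
    apply mul_left_cancel₀ (hp' (2 * r))
    have h1 := congrArg (fun x : Du M => Zt.val (x m)) hdtr
    rw [← hd', map_nsmul] at h1
    simpa using h1
  obtain ⟨Z, hZ1, hZ2, hZ3⟩ : ∃ Z : Dg Y (Du M), (∀ w ∉ S, Z w = 0) ∧ tr G Z = 0 ∧
      h • Dg.deg θ1 + p ^ r • Dg.deg Z = 0 := by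
    rcases S.eq_empty_or_nonempty with hS | ⟨w0, hw0⟩
    · exact ⟨0, fun _ _ => rfl, map_zero _, by simp [hdeg, hS]⟩
    · refine ⟨∑ g : G, (g • Dg.single w0 d - Dg.single w0 d), fun w hw => ?_, ?_, ?_⟩
      · rw [Dg.sum_apply]
        refine Finset.sum_eq_zero fun g _ => ?_
        rw [Dg.sub_apply, smul_single, single_apply, single_apply,
          if_neg (fun e : g • w0 = w => hw (e ▸ hSs g w0 hw0)),
          if_neg (fun e : w0 = w => hw (e ▸ hw0)), sub_zero]
      · simp [tr_smul]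
      · simp only [map_sum, map_sub, smul_single, Dg.deg_single, Finset.sum_sub_distrib]
        rw [← tr_apply, hdt, Finset.sum_const, Finset.card_univ, ← Nat.card_eq_fintype_card, hG,
          ← hd', zero_sub, smul_neg, smul_smul, smul_smul, add_neg_eq_zero]
        congr 1
        ring
  refine ⟨S, h • θ1 + p ^ r • Z, hSs, fun w hw => (Finset.mem_filter.1 hw).2, fun w hw => ?_,
    ?_, ?_, fun m w => ?_⟩
  · simp [hθ1, hw, hZ1 w hw]
  · rw [map_add, map_nsmul, map_nsmul, hZ3]
  · rw [map_add, map_nsmul, map_nsmul, htr1, hZ2]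
    simp
  · have e1 : Zt.val ((h • θ1 + p ^ r • Z) w m) =
        h * Zt.val (θ1 w m) + (p ^ r : ℕ) * Zt.val (Z w m) := by
      simp only [Dg.add_apply, Dg.nsmul_apply, Hm.add_apply, Hm.nsmul_apply, map_add, map_nsmul,
        nsmul_eq_mul]
    have e2 : (p : ℤ) ^ R = p ^ (R - r) * p ^ r := by rw [← pow_add]; congr 1; omega
    rw [e1, hθ1]
    split_ifs with hw
    · have e3 : (p : ℤ) ^ (R - r) = p ^ (R - j - r) * p ^ j := by rw [← pow_add]; congr 1; omega
      have e4 := hξ w m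
      push_cast at e4 ⊢
      refine ⟨-Zt.val (Z w m), ?_⟩
      rw [e2]
      linear_combination (-(h : ℤ) * p ^ (R - j - r)) * e4 - h * Zt.val (ξ w m) * e3
    · obtain ⟨c, hc⟩ := hbad m w hw
      have e3 : (p : ℤ) ^ (R - j - r) = p ^ r * p ^ (R - j - 2 * r) := by
        rw [← pow_add]; congr 1; omega
      push_cast at hc ⊢
      refine ⟨h * p ^ (R - j - 2 * r) * c - Zt.val (Z w m), ?_⟩
      rw [e2, e3]
      simp only [Hm.zero_apply, map_zero]
      linear_combination (h * p ^ r * p ^ (R - j - 2 * r) : ℤ) * hc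

end Pool.Agent.MP_db5b97_nt.H94
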